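import Pool.Agent.Lib.MP_cabec5_lc.Half

set_option autoImplicit false

namespace Pool.Agent.Results.MP_cabec5_lc.HalfGraphFree

open Pool.Agent.Lib.MP_cabec5_lc

theorem result (lam : Cardinal.{0}) (h0 : Cardinal.aleph0 ≤ lam) (V : Type) (G : SimpleGraph V)
    (hH : ¬ ∃ a b : ℕ → V, ∀ i j, G.Adj (a i) (b j) ↔ i < j) :
    (∃ r : V → V → Prop, IsWellOrder V r ∧
        ∀ v : V, Cardinal.mk {u : V // r u v ∧ G.Adj u v} < lam) ↔
      ¬ ∃ A B : Set V, Cardinal.mk A = Order.succ lam ∧ Cardinal.mk B = lam ∧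
        ∀ a ∈ A, ∀ b ∈ B, G.Adj a b :=
  ⟨fun ⟨_, hr, h⟩ => no_K_of_col G h0 hr h, col_of_half_free G h0 hH⟩

end Pool.Agent.Results.MP_cabec5_lc.HalfGraphFree
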