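import Pool.Agent.Lib.MP_cabec5_lc.Induced

set_option autoImplicit false

namespace Pool.Agent.Results.MP_cabec5_lc.InducedFree

open Pool.Agent.Lib.MP_cabec5_lc

theorem result (θ lam : Cardinal.{0}) (h0 : Cardinal.aleph0 ≤ θ) (hl : θ < lam)
    (hp : lam ^ θ = lam)
    (W : Type) [Finite W] (H : SimpleGraph W) (hb : H.IsBipartite)
    (hc : ∀ n : ℕ, 6 ≤ n → ¬ (SimpleGraph.cycleGraph n).IsIndContained H)
    (V : Type) (G : SimpleGraph V) (hH : ¬ H.IsIndContained G)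
    (hK : ¬ ∃ A B : Set V, Cardinal.mk A = Order.succ lam ∧ Cardinal.mk B = θ ∧
      ∀ a ∈ A, ∀ b ∈ B, G.Adj a b) :
    ∃ r : V → V → Prop, IsWellOrder V r ∧
      ∀ v : V, Cardinal.mk {u : V // r u v ∧ G.Adj u v} < lam :=
  col_of_induced_free h0 hl hp.le hb hc hH hK

end Pool.Agent.Results.MP_cabec5_lc.InducedFree
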