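import Pool.Agent.Lib.MP_cabec5_lc.Semi

set_option autoImplicit false

namespace Pool.Agent.Results.MP_cabec5_lc.Semialgebraic

open Pool.Agent.Lib.MP_cabec5_lc

theorem result (θ lam : Cardinal.{0}) (h0 : Cardinal.aleph0 ≤ θ) (hl : θ < lam)
    (K : Type) [Field K] [LinearOrder K] [IsStrictOrderedRing K] (d k D : ℕ)
    (V : Type) (G : SimpleGraph V)
    (hG : ∀ S : Finset V, ∃ (p : V → Fin d → K) (Q : Fin k → MvPolynomial (Fin d ⊕ Fin d) K)
      (P : (Fin k → SignType) → Prop), (∀ j, (Q j).totalDegree ≤ D) ∧ ∀ x ∈ S, ∀ y ∈ S, x ≠ y →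
        (G.Adj x y ↔ P fun j => SignType.sign (MvPolynomial.eval (Sum.elim (p x) (p y)) (Q j))))
    (hK : ¬ ∃ A B : Set V, Cardinal.mk A = Order.succ lam ∧ Cardinal.mk B = θ ∧
      ∀ a ∈ A, ∀ b ∈ B, G.Adj a b) :
    ∃ r : V → V → Prop, IsWellOrder V r ∧
      ∀ v : V, Cardinal.mk {u : V // r u v ∧ G.Adj u v} < lam :=
  col_of_semialgebraic h0 hl d k D G hG hK

end Pool.Agent.Results.MP_cabec5_lc.Semialgebraic
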