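import Pool.Agent.FS.SubdivisionLarge.Main

set_option autoImplicit false

namespace Pool.Agent.Results.MP_cabec5_lc.SubdivisionLarge

theorem result (θ lam : Cardinal.{0}) (h0 : Cardinal.aleph0 ≤ θ) (hl : θ < lam)
    (hp : lam ^ θ = lam) (m : ℕ) (hm : 2 ≤ m)
    (J : Type) (hJ : Cardinal.mk J = Order.succ lam) (V : Type) (G : SimpleGraph V)
    (hH : ¬ (SimpleGraph.fromRel fun a b : (Fin m ⊕ J) ⊕ Fin m × J =>
      ∃ (i : Fin m) (j : J), b = Sum.inr (i, j) ∧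
        (a = Sum.inl (Sum.inl i) ∨ a = Sum.inl (Sum.inr j))).IsIndContained G)
    (hK : ¬ ∃ A B : Set V, Cardinal.mk A = Order.succ lam ∧ Cardinal.mk B = θ ∧
      ∀ a ∈ A, ∀ b ∈ B, G.Adj a b) :
    ∃ r : V → V → Prop, IsWellOrder V r ∧
      ∀ v : V, Cardinal.mk {u : V // r u v ∧ G.Adj u v} < lam :=
  have : Nonempty J := Cardinal.mk_ne_zero_iff.1 (hJ ▸ Cardinal.succ_ne_zero lam)
  Pool.Agent.FS.SubdivisionLarge.col_of_large_free h0 hl hp.le hm hJ.le hH hK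

end Pool.Agent.Results.MP_cabec5_lc.SubdivisionLarge
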